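import Pool.Agent.THX.Stmts

/-!
# Module CHO: small combinations of a basis with a nonzero Jacobian determinant
-/

namespace Pool.Agent.THX.H79

open NumberField Module MvPolynomial

lemma aeval_int_map {r : ℕ} {A B : Type} [CommRing A] [CommRing B] (f : A →+* B) (x : Fin r → A)
    (q : MvPolynomial (Fin r) ℤ) : f (aeval x q) = aeval (fun i => f (x i)) q := by
  rw [aeval_def, aeval_def, hom_eval₂]
  have h : f.comp (algebraMap ℤ A) = algebraMap ℤ B := RingHom.ext_int _ _
  rw [h]

lemma det_jac_map {n r : ℕ} {A B : Type} [CommRing A] [CommRing B] (f : A →+* B)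
    (P : Fin n × Fin r → MvPolynomial (Fin r) ℤ) (x : Fin n → Fin r → A) :
    f (jac P x).det = (jac P fun t i => f (x t i)).det := by
  rw [RingHom.map_det]
  congr 1
  ext a b
  simp only [jac, RingHom.mapMatrix_apply, Matrix.map_apply, Matrix.of_apply]
  exact aeval_int_map f _ _

/-- The generic determinant. -/
noncomputable def gen (n r : ℕ) (P : Fin n × Fin r → MvPolynomial (Fin r) ℤ) :
    MvPolynomial (Fin r × Fin n) (MvPolynomial (Fin n × Fin n) ℤ) :=
  (jac P fun t i => ∑ k, X (i, k) * C (X (t, k))).det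

lemma det_emb_ne_zero {n : ℕ} {K : Type} [Field K] [NumberField K] (hK : finrank ℚ K = n)
    (e : Fin n ≃ (K →+* ℂ)) (b : Fin n → K) (hb : LinearIndependent ℚ b) :
    (Matrix.of fun t k => e t (b k)).det ≠ 0 := by
  intro h0
  rw [← Matrix.exists_vecMul_eq_zero_iff] at h0
  obtain ⟨w, hw, h⟩ := h0
  apply hw
  have hspan : ∀ x : K, ∑ t, w t * e t x = 0 := by
    intro x
    have h1 : Submodule.span ℚ (Set.range b) = ⊤ :=
      hb.span_eq_top_of_card_eq_finrank' (by simp [hK])
    have h2 : x ∈ Submodule.span ℚ (Set.range b) := by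
      rw [h1]
      exact Submodule.mem_top
    induction h2 using Submodule.span_induction with
    | mem x hx =>
      obtain ⟨k, rfl⟩ := hx
      have h3 := congrFun h k
      simpa [Matrix.vecMul, dotProduct] using h3
    | zero => simp
    | add x y _ _ hx hy =>
      simp only [map_add, mul_add, Finset.sum_add_distrib, hx, hy, add_zero]
    | smul a x _ hx =>
      have h3 : ∀ t, w t * e t (a • x) = (a : ℂ) * (w t * e t x) := by
        intro t
        rw [Rat.smul_def, map_mul, map_ratCast]
        ring
      simp only [h3, ← Finset.mul_sum, hx, mul_zero]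
  have hli := linearIndependent_monoidHom K ℂ
  have hinj : Function.Injective (fun t : Fin n => ((e t : K →+* ℂ) : K →* ℂ)) := by
    intro s t hst
    apply e.injective
    ext x
    exact DFunLike.congr_fun hst x
  have h4 := Fintype.linearIndependent_iff.mp (hli.comp _ hinj) w (by
    funext x
    simpa using hspan x)
  funext t
  exact h4 t

theorem cho : ChoStmt := by
  intro n r P z _ hz
  refine ⟨(gen n r P).totalDegree, ?_⟩
  intro K _ _ hK e b hb
  classical
  set f : MvPolynomial (Fin n × Fin n) ℤ →+* ℂ :=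
    eval₂Hom (Int.castRingHom ℂ) (fun p : Fin n × Fin n => e p.1 (b p.2 : K)) with hf
  set D : MvPolynomial (Fin r × Fin n) ℂ := map f (gen n r P) with hD
  have hD' : D = (jac P fun t i => ∑ k, X (i, k) * C (e t (b k : K))).det := by
    rw [hD, gen, det_jac_map]
    simp [hf]
  have heval : ∀ x : Fin r × Fin n → ℂ,
      eval x D = (jac P fun t i => ∑ k, x (i, k) * e t (b k : K)).det := by
    intro x
    rw [hD', det_jac_map]
    simp
  have hM := det_emb_ne_zero hK e (fun k => (b k : K)) hb
  set M : Matrix (Fin n) (Fin n) ℂ := Matrix.of fun t k => e t (b k : K) with hMdef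
  have hD0 : D ≠ 0 := by
    intro h0
    have h1 := heval (fun p => (M⁻¹.mulVec fun t => (z t p.1 : ℂ)) p.2)
    rw [h0, map_zero] at h1
    have h2 : ∀ t i, ∑ k, (M⁻¹.mulVec fun t => (z t i : ℂ)) k * e t (b k : K) = (z t i : ℂ) := by
      intro t i
      have h3 : M.mulVec (M⁻¹.mulVec fun t => (z t i : ℂ)) = fun t => (z t i : ℂ) := by
        rw [Matrix.mulVec_mulVec, Matrix.mul_nonsing_inv _ (isUnit_iff_ne_zero.mpr hM),
          Matrix.one_mulVec]
      have h4 := congrFun h3 t
      rw [← h4, Matrix.mulVec, dotProduct]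
      apply Finset.sum_congr rfl
      intro k _
      rw [hMdef, Matrix.of_apply, mul_comm]
    simp only [h2] at h1
    have h5 : (jac P fun t i => (z t i : ℂ)) = 1 := by
      ext a c
      rw [jac, Matrix.of_apply]
      have h6 := aeval_int_map (Int.castRingHom ℂ) (z c.1) (pderiv c.2 (P a))
      have h7 := hz a c.1 c.2
      rw [← coe_aeval_eq_eval] at h7
      have h8 : aeval (z c.1) (pderiv c.2 (P a)) = if a = (c.1, c.2) then (1 : ℤ) else 0 := h7
      rw [h8] at h6
      rw [Matrix.one_apply]
      simp only [eq_intCast] at h6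
      rw [← h6]
      split_ifs <;> simp
    rw [h5, Matrix.det_one] at h1
    exact zero_ne_one h1
  have hex : ∃ x : Fin r × Fin n → ℂ, (∀ i, x i ∈ (Finset.range ((gen n r P).totalDegree + 1)).image
      (fun j : ℕ => (j : ℂ))) ∧ eval x D ≠ 0 := by
    by_contra hcon
    push Not at hcon
    apply hD0
    refine eq_zero_of_eval_zero_at_prod_finset D _ (fun i => ?_) hcon
    rw [Finset.card_image_of_injective _ Nat.cast_injective, Finset.card_range, Nat.lt_succ_iff]
    have h1 : D.degreeOf i ≤ (gen n r P).degreeOf i := by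
      rw [degreeOf_def, degreeOf_def]
      exact Multiset.count_le_of_le _ degrees_map_le
    exact h1.trans (degreeOf_le_totalDegree _ _)
  obtain ⟨x, hx, hxD⟩ := hex
  have hx' : ∀ i, ∃ j : ℕ, j ≤ (gen n r P).totalDegree ∧ (j : ℂ) = x i := by
    intro i
    obtain ⟨j, hj, hj'⟩ := Finset.mem_image.mp (hx i)
    exact ⟨j, Nat.lt_succ_iff.mp (Finset.mem_range.mp hj), hj'⟩
  choose c hc hc' using hx'
  refine ⟨fun i k => c (i, k), fun i k => hc _, ?_⟩
  rw [heval] at hxD
  simpa only [hc'] using hxD

end Pool.Agent.THX.H79
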