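import Pool.Agent.THX.Stmts

/-!
# Module TRC: power sums of conjugates are integers
-/

namespace Pool.Agent.THX.H79

open NumberField Module

theorem trc : TrcStmt := by
  intro n r Q K _ _ e x
  set y : 𝓞 K := MvPolynomial.aeval x Q with hy
  refine ⟨Algebra.trace ℤ (𝓞 K) y, ?_⟩
  have h1 : ∀ t, MvPolynomial.aeval (fun i => e t (x i : K)) Q = e t (y : K) := by
    intro t
    have h2 := MvPolynomial.hom_eval₂ Q (algebraMap ℤ (𝓞 K))
      ((e t).comp (algebraMap (𝓞 K) K)) x
    rw [hy, MvPolynomial.aeval_def, MvPolynomial.aeval_def]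
    have h3 : algebraMap ℤ ℂ = ((e t).comp (algebraMap (𝓞 K) K)).comp (algebraMap ℤ (𝓞 K)) :=
      RingHom.ext_int _ _
    rw [h3]
    exact h2.symm
  simp only [h1]
  rw [e.sum_comp (fun σ : K →+* ℂ => σ (y : K)),
    ← Equiv.sum_comp (RingHom.equivRatAlgHom K ℂ).symm (fun σ : K →+* ℂ => σ (y : K))]
  have h4 := trace_eq_sum_embeddings (K := ℚ) (L := K) ℂ (x := (y : K))
  rw [← Algebra.coe_trace_int] at h4
  simp only [eq_ratCast, Rat.cast_intCast] at h4
  rw [h4]
  rfl

end Pool.Agent.THX.H79
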